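import Mathlib
import Pool.Agent.E8helper91.PT.T9

set_option autoImplicit false

/-!
# All but a proportion `(log x) ^ (-A)` of the admissible sets with up to
`c log x / (log log x) ^ 2` elements
-/

open Finset

namespace Pool.Agent.Results.MP_f686a1_nt.AlmostAllPowerH91

/-- `A` is admissible: for every prime `p` some residue class modulo `p` contains no element
of `A`. -/
def Admissible (A : Finset ℕ) : Prop :=
  ∀ p : ℕ, p.Prime → ∃ c : ℕ, ∀ a ∈ A, ¬ a ≡ c [MOD p]

open Classical in
/-- The integers `1 ≤ n ≤ H` with `n + a` prime for all `a` in `A`. -/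
noncomputable def shifts (H : ℕ) (A : Finset ℕ) : Finset ℕ :=
  (Icc 1 H).filter (fun n => ∀ a ∈ A, (n + a).Prime)

open Classical in
/-- The admissible sets of `k` integers in `{0, 1, ..., H}`. -/
noncomputable def adm (k H : ℕ) : Finset (Finset ℕ) :=
  ((range (H + 1)).powersetCard k).filter (fun A => Admissible A)

open Classical in
/-- The admissible sets `A` of `k` integers in `{0, 1, ..., H}` with at most `H ^ (1 - η)` integers
`1 ≤ n ≤ H` such that all the numbers `n + a`, `a ∈ A`, are prime. -/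
noncomputable def exceptional (η : ℝ) (k H : ℕ) : Finset (Finset ℕ) :=
  (adm k H).filter (fun A => ((shifts H A).card : ℝ) ≤ (H : ℝ) ^ (1 - η))

/-- For every `0 < η < 1` and every integer `B ≥ 0` there is `c > 0` such that for arbitrarily large
`x`, for all integers `x ^ η ≤ H ≤ x` and all `1 ≤ k ≤ c log x / (log log x) ^ 2`: all but a
proportion of at most `(log x) ^ (-B)` of the admissible sets `A` of `k` integers in `{0, ..., H}`
have more than `H ^ (1 - η)` integers `1 ≤ n ≤ H` with all of `n + a`, `a ∈ A`, prime. -/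
theorem result (η : ℝ) (hη0 : 0 < η) (hη1 : η < 1) (B : ℕ) :
    ∃ c : ℝ, 0 < c ∧ ∀ X : ℝ, ∃ x : ℝ, X ≤ x ∧ Real.exp 1 < x ∧
      ∀ H : ℕ, x ^ η ≤ (H : ℝ) → (H : ℝ) ≤ x →
      ∀ k : ℕ, 1 ≤ k → (k : ℝ) ≤ c * Real.log x / Real.log (Real.log x) ^ 2 →
        ((exceptional η k H).card : ℝ) ≤ 1 / Real.log x ^ B * ((adm k H).card : ℝ) := by
  classical
  obtain ⟨c, hc, h⟩ := Pool.Agent.E8helper91.PT.main_adm_T hη0 hη1 B
  refine ⟨c, hc, fun X => ?_⟩
  obtain ⟨x, hx, hx1, h2⟩ := h X
  refine ⟨x, hx, hx1, fun H hH1 hH2 k hk hkx => ?_⟩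
  have h3 := h2 H hH1 hH2 k hk hkx
  have e1 : exceptional η k H = ((range (H + 1)).powersetCard k).filter
      (fun A => Pool.Agent.R521.F6.Adm A ∧ ((((Icc 1 H).filter
        (fun n => ∀ a ∈ A, (n + a).Prime)).card : ℕ) : ℝ) ≤ (H : ℝ) ^ (1 - η)) := by
    unfold exceptional adm
    rw [filter_filter]
    apply filter_congr
    intro A _
    have e : shifts H A = (Icc 1 H).filter (fun n => ∀ a ∈ A, (n + a).Prime) := by
      unfold shifts
      apply filter_congr
      intro n _
      exact Iff.rfl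
    rw [e]
    exact Iff.rfl
  have e2 : adm k H = ((range (H + 1)).powersetCard k).filter (fun A => Pool.Agent.R521.F6.Adm A) := by
    unfold adm
    apply filter_congr
    intro A _
    exact Iff.rfl
  rw [e1, e2]
  exact h3

end Pool.Agent.Results.MP_f686a1_nt.AlmostAllPowerH91
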