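import Pool.Agent.E8helper86.LF.Rel

/-!
# Prime tuples `n + a 1, ..., n + a r` with `n` in arbitrary subsets of sparse sets of integers with
restricted digits, for almost all `a`

Let `S` be the set of the integers below `b ^ k` whose digits in base `b` belong to given sets of at least
two digits; `S` may have only `b ^ (δ k)` elements. Let `M l`, at most `k ^ W` of them, be arbitrary sets of
natural numbers, chosen before the shifts. For all but `X ^ r / k ^ U` of the `r`-tuples of shifts
`a j ≤ X`, `X` of the order of `b ^ k`, the following holds for all the sets `M l`, all windows and all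
residue classes modulo `q ≤ k ^ K` at once: if the elements `n` of `S` and `M l` in the window and in the
class for which no `n + a j` has a prime factor `≤ z` are at least `|S| / k ^ K`, then those for which all
`n + a j` are prime make up the proportion `1 / (V(z) log b ^ k) ^ r` of them, up to a relative error `ε`.
-/

set_option autoImplicit false

namespace Pool.Agent.Results.MP_f686a1_nt.DigitTuplesH86

open Finset

open Classical in
/-- The number of the `n` in `S` and in `M` for which all the `n + a j` are prime. -/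
noncomputable def primeCount {r : ℕ} (S : Finset ℕ) (M : Set ℕ) (a : Fin r → ℕ) : ℕ :=
  (S.filter (fun n => n ∈ M ∧ ∀ j, (n + a j).Prime)).card

open Classical in
/-- The number of the `n` in `S` and in `M` for which no prime `p ≤ z` divides one of the `n + a j`. -/
noncomputable def roughCount {r : ℕ} (z : ℕ) (S : Finset ℕ) (M : Set ℕ) (a : Fin r → ℕ) : ℕ :=
  (S.filter (fun n => n ∈ M ∧ ∀ j, ∀ p : ℕ, p.Prime → p ≤ z → ¬ p ∣ n + a j)).card

/-- The product of `1 - 1 / p` over the primes `p ≤ z`. -/
noncomputable def V (z : ℕ) : ℝ := ∏ p ∈ (Icc 1 z).filter Nat.Prime, (1 - 1 / (p : ℝ))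

/-- The prediction: the number of the `n` for which the `n + a j` have no prime factor `p ≤ z`, times
the `r`-th power of the probability `1 / (V(z) L)` that an integer of logarithm `L` without such a prime
factor is prime. -/
noncomputable def predicted {r : ℕ} (z : ℕ) (L : ℝ) (S : Finset ℕ) (M : Set ℕ) (a : Fin r → ℕ) : ℝ :=
  roughCount z S M a / (V z * L) ^ r

/-- The `n` in `M` with `y₁ ≤ n < y₂` which leave the remainder `c` modulo `q`. -/
def part (M : Set ℕ) (y₁ y₂ q c : ℕ) : Set ℕ := {n | n ∈ M ∧ y₁ ≤ n ∧ n < y₂ ∧ n % q = c}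

/-- The integers below `b ^ k` whose `i`-th digit in base `b` belongs to `D i` for all `i < k`. -/
def digitSet (b : ℕ) (D : ℕ → Finset ℕ) (k : ℕ) : Finset ℕ :=
  (range (b ^ k)).filter (fun n : ℕ => ∀ i < k, n / b ^ i % b ∈ D i)

/-- The `r`-tuples of integers between `1` and `X`. -/
def tuples (r X : ℕ) : Finset (Fin r → ℕ) := Fintype.piFinset (fun _ => Icc 1 X)

/-- The property of the tuple `a`: for every part of `M` in a window and in a residue class modulo
`q ≤ k ^ K` which contains at least `|S| / k ^ K` elements `n` of `S` such that no `n + a j` has a prime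
factor `≤ z`, the prediction is correct up to a relative error of at most `ε`. -/
def Relative {r : ℕ} (ε : ℝ) (K b k z : ℕ) (S : Finset ℕ) (M : Set ℕ) (a : Fin r → ℕ) : Prop :=
  ∀ y₁ y₂ q c : ℕ, 1 ≤ q → (q : ℝ) ≤ (k : ℝ) ^ K →
    (S.card : ℝ) / (k : ℝ) ^ K ≤ roughCount z S (part M y₁ y₂ q c) a →
    |(primeCount S (part M y₁ y₂ q c) a : ℝ) -
        predicted z (Real.log ((b : ℝ) ^ k)) S (part M y₁ y₂ q c) a| ≤
      ε * predicted z (Real.log ((b : ℝ) ^ k)) S (part M y₁ y₂ q c) a

open Classical in
/-- **Prime tuples in arbitrary subsets of sparse sets.** Let `b ≥ 2`, `F`, `r`, `U`, `K`, `W` and `ε > 0` be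
given. For `k` large and `z` between `k ^ B` (`B` large) and any larger fixed power of `k`: let `S` be the
set of the integers below `b ^ k` with digits in given sets `D i` of at least two digits,
`b ^ k ≤ X ≤ F b ^ k`, and let at most `k ^ W` ARBITRARY sets `M l` be given. All but at most
`X ^ r / k ^ U` of the `r`-tuples of integers `a j ≤ X` have the property `Relative` for all the
sets `M l`. -/
theorem result (b : ℕ) (hb : 2 ≤ b) (r F U K W : ℕ) (ε : ℝ) (hε : 0 < ε) :
    ∃ B : ℕ, ∀ E : ℕ, ∃ K₀ : ℕ, ∀ k : ℕ, K₀ ≤ k → ∀ z : ℕ, (k : ℝ) ^ B ≤ z → (z : ℝ) ≤ (k : ℝ) ^ E →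
      ∀ D : ℕ → Finset ℕ, (∀ i < k, D i ⊆ range b ∧ 2 ≤ (D i).card) →
      ∀ X : ℕ, b ^ k ≤ X → X ≤ F * b ^ k → ∀ m : ℕ, (m : ℝ) ≤ (k : ℝ) ^ W → ∀ M : Fin m → Set ℕ,
      (((tuples r X).filter (fun a => ¬ ∀ l : Fin m,
        Relative ε K b k z (digitSet b D k) (M l) a)).card : ℝ) ≤ (X : ℝ) ^ r / (k : ℝ) ^ U :=
  Pool.Agent.E8helper86.LF.digR b hb r F U K W ε hε

end Pool.Agent.Results.MP_f686a1_nt.DigitTuplesH86
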