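import Pool.Agent.E8helper22.SZ.Final2

/-!
# MP_f686a1_nt, Q1: uniform prime tuples and exceptional characters

Let `0 < δ < 1/2` and `θ > 1/2`, say `θ = 0.51`. There is `C > 0` such that, if `χ` is a primitive
real character modulo a large `q` with `|L(1, χ)| ≤ exp(-C (log q)^(δ/(1-δ)))`, then the assertion
of Q1 for `δ` fails at `x = exp((C log q)^(1/(1-δ)))`, and fails badly: there is an admissible set
`A` of at most `(log x)^(1-δ)` integers, all at most `x^(1-δ)`, such that for every positive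
integer `n ≤ x` fewer than `θ |A|` of the `n + a`, `a ∈ A`, are prime.

Hence the assertion of Q1 for one `δ < 1/2`, or only the weaker assertion that some `n` makes at
least 51 percent of the `n + a` prime, gives the lower bound `|L(1, χ)| > exp(-C (log q)^(δ/(1-δ)))`
for all primitive real characters of large modulus, and an interval
`[1 - exp(-C (log q)^(δ/(1-δ))), 1]` without zeros; the assertion for all `δ` gives this with
`exp(-(log q)^ε)` for every `ε > 0`.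

The set is found at random: `A` consists of `k ≈ C log q` random multiples of
`W = q' ∏_{p ≤ k, p ≠ p₁} p`, where `q = p₁ q'` and the odd prime `p₁` does not divide `a / W`. For
every `n` modulo `q`, almost half of the `n + a` have `χ(n + a) ≠ -1`; and for every `n ≤ x`, only
a small part of the `n + a` are primes with `χ(n + a) ≠ -1`, since a small `L(1, χ)` makes such
primes very rare, in the arithmetic progression `n mod W` too.
-/

set_option autoImplicit false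

namespace Pool.Agent.Results.MP_f686a1_nt.ExceptionalCharactersH22

/-- `A` is admissible: for every prime `p` some residue class modulo `p` contains no element
of `A`. -/
def Admissible (A : Finset ℕ) : Prop :=
  ∀ p : ℕ, p.Prime → ∃ c : ℕ, ∀ a ∈ A, ¬ a ≡ c [MOD p]

/-- The assertion of Q1 for one value of `δ`. -/
def UniformTuples (δ : ℝ) : Prop := ∃ x₀ : ℝ, ∀ x : ℝ, x₀ ≤ x → ∀ A : Finset ℕ, Admissible A →
  (A.card : ℝ) ≤ Real.log x ^ (1 - δ) → (∀ a ∈ A, (a : ℝ) ≤ x ^ (1 - δ)) →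
  ∃ n : ℕ, 0 < n ∧ (n : ℝ) ≤ x ∧ ∀ a ∈ A, (n + a).Prime

/-- The assertion of Q1 for one value of `δ`, weakened as follows: instead of all `n + a`, at least
`θ |A|` of the `n + a` are prime. -/
def ManyPrimes (θ δ : ℝ) : Prop := ∃ x₀ : ℝ, ∀ x : ℝ, x₀ ≤ x → ∀ A : Finset ℕ, Admissible A →
  (A.card : ℝ) ≤ Real.log x ^ (1 - δ) → (∀ a ∈ A, (a : ℝ) ≤ x ^ (1 - δ)) →
  ∃ n : ℕ, 0 < n ∧ (n : ℝ) ≤ x ∧ θ * A.card ≤ ((A.filter (fun a => (n + a).Prime)).card : ℝ)

/-- Primitive real characters: primitive, with values `0`, `1`, `-1`. -/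
def PrimitiveReal {q : ℕ} (χ : DirichletCharacter ℂ q) : Prop :=
  χ.IsPrimitive ∧ ∀ a, χ a = 0 ∨ χ a = 1 ∨ χ a = -1

/-- For all primitive real characters `χ` modulo `q`, `q` large, `|L(1, χ)| > exp(-C (log q)^κ)` and
`L(β, χ) ≠ 0` for all real numbers `β` in `[1 - exp(-C (log q)^κ), 1]`. -/
def NoExceptional (C κ : ℝ) : Prop :=
  ∃ q₀ : ℕ, ∀ (q : ℕ) [NeZero q] (χ : DirichletCharacter ℂ q), q₀ ≤ q → PrimitiveReal χ →
    Real.exp (-(C * Real.log q ^ κ)) < ‖χ.LFunction 1‖ ∧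
    ∀ β : ℝ, 1 - Real.exp (-(C * Real.log q ^ κ)) ≤ β → β ≤ 1 → χ.LFunction β ≠ 0

theorem result :
    -- a very small `L(1, χ)` refutes the assertion of Q1 for `δ` at an explicit `x`: fewer than
    -- `θ |A|` of the `n + a` are prime
    (∀ δ θ : ℝ, 0 < δ → δ < 1 / 2 → 1 / 2 < θ → ∃ C : ℝ, 0 < C ∧
      ∃ q₀ : ℕ, ∀ (q : ℕ) [NeZero q] (χ : DirichletCharacter ℂ q), q₀ ≤ q → PrimitiveReal χ →
        ‖χ.LFunction 1‖ ≤ Real.exp (-(C * Real.log q ^ (δ / (1 - δ)))) →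
        ∀ x : ℝ, x = Real.exp ((C * Real.log q) ^ (1 / (1 - δ))) →
        ∃ A : Finset ℕ, Admissible A ∧ (A.card : ℝ) ≤ Real.log x ^ (1 - δ) ∧
          (∀ a ∈ A, (a : ℝ) ≤ x ^ (1 - δ)) ∧
          ∀ n : ℕ, 0 < n → (n : ℝ) ≤ x →
            ((A.filter (fun a => (n + a).Prime)).card : ℝ) < θ * A.card) ∧
    -- the assertion of Q1 for one `δ < 1/2`, or its weaker form
    (∀ δ θ : ℝ, 0 < δ → δ < 1 / 2 → 1 / 2 < θ → UniformTuples δ ∨ ManyPrimes θ δ →
      ∃ C : ℝ, 0 < C ∧ NoExceptional C (δ / (1 - δ))) ∧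
    -- the assertion of Q1 for all `δ`, or its weaker form
    (∀ θ : ℝ, 1 / 2 < θ → (∀ δ : ℝ, 0 < δ → UniformTuples δ ∨ ManyPrimes θ δ) →
      ∀ ε : ℝ, 0 < ε → NoExceptional 1 ε) := by
  have key : ∀ δ θ : ℝ, UniformTuples δ ∨ ManyPrimes θ δ →
      Pool.Agent.E8helper22.SZ.WeakTuples (min θ 1) δ := by
    intro δ θ h
    rcases h with h | h
    · exact Pool.Agent.E8helper22.SZ.weak_of (min_le_right _ _) h
    · obtain ⟨x₀, hx₀⟩ := h
      refine ⟨x₀, fun x hx A h1 h2 h3 => ?_⟩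
      obtain ⟨n, hn0, hnx, hn⟩ := hx₀ x hx A h1 h2 h3
      refine ⟨n, hn0, hnx, le_trans ?_ hn⟩
      exact mul_le_mul_of_nonneg_right (min_le_left _ _) (Nat.cast_nonneg _)
  have hmin : ∀ θ : ℝ, 1 / 2 < θ → 1 / 2 < min θ 1 := fun θ h => lt_min h (by norm_num)
  refine ⟨?_, ?_, ?_⟩
  · intro δ θ h1 h2 h3
    obtain ⟨C, hC, q₀, hq₀⟩ := Pool.Agent.E8helper22.SZ.strong1 δ θ h1 h2 h3
    exact ⟨C, hC, q₀, fun q _ χ hq hχ hL x hx => hq₀ q χ hq ⟨hχ.1, hχ.2⟩ hL x hx⟩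
  · intro δ θ h1 h2 h3 hU
    obtain ⟨C, hC, q₀, hq₀⟩ :=
      Pool.Agent.E8helper22.SZ.strong2 δ (min θ 1) h1 h2 (hmin θ h3) (key δ θ hU)
    exact ⟨C, hC, q₀, fun q _ χ hq hχ => hq₀ q χ hq ⟨hχ.1, hχ.2⟩⟩
  · intro θ hθ hU ε hε
    obtain ⟨q₀, hq₀⟩ := Pool.Agent.E8helper22.SZ.strong3 (min θ 1) (hmin θ hθ)
      (fun δ hδ => key δ θ (hU δ hδ)) ε hε
    refine ⟨q₀, fun q _ χ hq hχ => ?_⟩
    have := hq₀ q χ hq ⟨hχ.1, hχ.2⟩
    rw [one_mul]
    exact this

end Pool.Agent.Results.MP_f686a1_nt.ExceptionalCharactersH22
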