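import Pool.Agent.E8helper28.LN.Hp6
import Pool.Agent.E8helper28.GB.All

/-!
# Prime tuples for almost all vectors of shifts on every hyperplane (helper28)
-/

set_option autoImplicit false

namespace Pool.Agent.Results.MP_f686a1_nt.HyperplanesH28

open Finset

open Classical in
/-- The number of `n ∈ M` with `y₁ < n ≤ y₂` such that `|n + a i|` is prime for every `i`. -/
noncomputable def primeCount {k : ℕ} (a : Fin k → ℤ) (M : Set ℕ) (y₁ y₂ : ℕ) : ℕ :=
  ((Ioc y₁ y₂).filter (fun n : ℕ => n ∈ M ∧ ∀ i, ((n : ℤ) + a i).natAbs.Prime)).card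

open Classical in
/-- The number of `n ∈ M` with `y₁ < n ≤ y₂` such that no `n + a i` is divisible by a prime `p ≤ z`. -/
noncomputable def roughCount {k : ℕ} (a : Fin k → ℤ) (z : ℕ) (M : Set ℕ) (y₁ y₂ : ℕ) : ℕ :=
  ((Ioc y₁ y₂).filter (fun n : ℕ => n ∈ M ∧ ∀ i, ∀ p : ℕ, p.Prime → p ≤ z → ¬ (p : ℤ) ∣ (n : ℤ) + a i)).card

/-- `∏_{p ≤ z} (1 - 1 / p)`, the density of the integers without prime factors `≤ z`. -/
noncomputable def V (z : ℕ) : ℝ := ∏ p ∈ (Icc 1 z).filter Nat.Prime, (1 - 1 / (p : ℝ))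

/-- For every one of the sets `𝒩 l` and every window `y₁ < n ≤ y₂` with `y₂ ≤ B N` which contains at least
`N / log ^ K N` elements `n` of `𝒩 l` such that the numbers `n + a i` have no prime factor `≤ z`, the
proportion of these elements for which all `|n + a i|` are prime is `1 / (V z log N) ^ k`, up to a relative
error of at most `ε`. -/
def Relative (ε : ℝ) (K B N z : ℕ) {k m : ℕ} (𝒩 : Fin m → Set ℕ) (a : Fin k → ℤ) : Prop :=
  ∀ l : Fin m, ∀ y₁ y₂ : ℕ, y₁ ≤ y₂ → y₂ ≤ B * N →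
    (N : ℝ) / Real.log N ^ K ≤ roughCount a z (𝒩 l) y₁ y₂ →
    |(primeCount a (𝒩 l) y₁ y₂ : ℝ) - roughCount a z (𝒩 l) y₁ y₂ / (V z * Real.log N) ^ k| ≤
      ε * (roughCount a z (𝒩 l) y₁ y₂ / (V z * Real.log N) ^ k)

/-- For every prime `p` some residue class modulo `p` contains no `-a i`, equivalently none of the `a i` after
a change of sign: the set of the `a i` is admissible. -/
def Admissible {k : ℕ} (a : Fin k → ℤ) : Prop := ∀ p : ℕ, p.Prime → ∃ r : ℤ, ∀ i, ¬ (p : ℤ) ∣ r + a i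

/-- The factor at `p` of the singular series: `(1 - ν / p) / (1 - 1 / p) ^ k`, `ν` the number of the residue
classes `r` modulo `p` with `p ∣ r + a i` for some `i`. -/
noncomputable def localFactor {k : ℕ} (a : Fin k → ℤ) (p : ℕ) : ℝ :=
  (1 - (((range p).filter (fun r : ℕ => ∃ i, (p : ℤ) ∣ (r : ℤ) + a i)).card : ℝ) / p) / (1 - 1 / (p : ℝ)) ^ k

/-- The formula of Hardy and Littlewood, up to a relative error `ε`, in all windows `y₁ < n ≤ y₂` with
`y₂ ≤ B N` and `y₂ - y₁ ≥ N / log ^ K N`; the singular series `S` is the product of the local factors. -/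
def HardyLittlewood (ε : ℝ) (K B N : ℕ) {k : ℕ} (a : Fin k → ℤ) : Prop :=
  ∃ S : ℝ, 0 < S ∧
    Filter.Tendsto (fun z : ℕ => ∏ p ∈ (Icc 1 z).filter Nat.Prime, localFactor a p) Filter.atTop (nhds S) ∧
    ∀ y₁ y₂ : ℕ, y₁ ≤ y₂ → y₂ ≤ B * N → (N : ℝ) / Real.log N ^ K ≤ (y₂ : ℝ) - y₁ →
      |(primeCount a Set.univ y₁ y₂ : ℝ) - S * ((y₂ : ℝ) - y₁) / Real.log N ^ k| ≤
        ε * (S * ((y₂ : ℝ) - y₁) / Real.log N ^ k)

/-- The number of the integers `γ 1, ..., γ k` and `-(γ 1 + ... + γ k)` which are not zero. -/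
def nonzero {k : ℕ} (γ : Fin k → ℤ) : ℕ :=
  (univ.filter (fun i => γ i ≠ 0)).card + (if ∑ i, γ i = 0 then 0 else 1)

open Pool.Agent.TH935.TG
open Pool.Agent.TH935.TF (Adm Gz Fq om)
open Pool.Agent.H373R2.T7 (pz mem_pz Vz ev_L')
open Pool.Agent.E8helper28.LN

open Classical in
lemma prime_eq {k : ℕ} (a : Fin k → ℤ) (M : Set ℕ) (Y y₁ y₂ : ℕ) (hY : y₂ ≤ Y) :
    primeCount a M y₁ y₂ = cnM (one1 k) a (win ((Ioc 0 Y).filter (· ∈ M)) y₁ y₂) := by
  unfold primeCount cnM win one1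
  rw [filter_filter, filter_filter]
  congr 1
  ext n
  rw [mem_filter, mem_filter, mem_Ioc, mem_Ioc]
  simp only [one_mul]
  constructor
  · rintro ⟨⟨h1, h2⟩, h3, h4⟩
    exact ⟨⟨by omega, by omega⟩, h3, ⟨h1, h2⟩, h4⟩
  · rintro ⟨_, h3, ⟨h1, h2⟩, h4⟩
    exact ⟨⟨h1, h2⟩, h3, h4⟩

open Classical in
lemma rough_eq {k : ℕ} (a : Fin k → ℤ) (z : ℕ) (M : Set ℕ) (Y y₁ y₂ : ℕ) (hY : y₂ ≤ Y) :
    roughCount a z M y₁ y₂ = rgM (one1 k) a z (win ((Ioc 0 Y).filter (· ∈ M)) y₁ y₂) := by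
  unfold roughCount rgM win one1
  rw [filter_filter, filter_filter]
  congr 1
  ext n
  rw [mem_filter, mem_filter, mem_Ioc, mem_Ioc]
  simp only [one_mul]
  constructor
  · rintro ⟨⟨h1, h2⟩, h3, h4⟩
    exact ⟨⟨by omega, by omega⟩, h3, ⟨h1, h2⟩, fun i p hp => h4 i p (mem_pz.1 hp).2 (mem_pz.1 hp).1⟩
  · rintro ⟨_, h3, ⟨h1, h2⟩, h4⟩
    exact ⟨⟨h1, h2⟩, h3, fun i p hp1 hp2 => h4 i p (mem_pz.2 ⟨hp2, hp1⟩)⟩

lemma V_eq (z : ℕ) : V z = Vz z := rfl

lemma Gz_eq1 {k : ℕ} (a : Fin k → ℤ) :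
    (fun z : ℕ => Gz (om (one1 k) a) k z) = (fun z : ℕ => ∏ p ∈ (Icc 1 z).filter Nat.Prime, localFactor a p) := by
  funext z
  unfold Gz Fq om localFactor one1
  simp only [one_mul]
  rfl

lemma adm_eq {k : ℕ} (a : Fin k → ℤ) (h : Admissible a) : Adm (one1 k) a := by
  intro p hp
  obtain ⟨r, hr⟩ := h p hp
  refine ⟨r, fun i => ?_⟩
  unfold one1
  rw [one_mul]
  exact hr i

lemma good_of {k : ℕ} (γ : Fin k → ℤ) (h : 3 ≤ nonzero γ) : Good γ := by
  classical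
  unfold Good
  refine h.trans ?_
  unfold nonzero
  have e : (univ.filter (fun o : Option (Fin k) => gam γ o ≠ 0)) =
      ((univ.filter (fun i : Fin k => γ i ≠ 0)).image some) ∪ (if ∑ i, γ i = 0 then ∅ else {none}) := by
    ext o
    rw [mem_filter, mem_union, mem_image]
    rcases o with _ | i
    · by_cases h1 : ∑ i, γ i = 0
      · rw [if_pos h1]
        simp [gam_none, h1]
      · rw [if_neg h1]
        simp [gam_none, h1]
    · have h2 : some i ∉ (if ∑ i, γ i = 0 then (∅ : Finset (Option (Fin k))) else {none}) := by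
        split_ifs <;> simp
      simp [gam_some, h2]
  rw [e, card_union_of_disjoint, card_image_of_injective _ (Option.some_injective _)]
  · apply Nat.add_le_add_left
    split_ifs <;> simp
  · rw [disjoint_left]
    intro o ho
    rw [mem_image] at ho
    obtain ⟨i, _, rfl⟩ := ho
    split_ifs <;> simp

open Classical in
lemma rel_of (ε : ℝ) (K B N z : ℕ) {k m : ℕ} (𝒩 : Fin m → Set ℕ) (a : Fin k → ℤ)
    (h : HB1 ε K B N z (fun l : Option (Fin m) => (Ioc 0 (B * N)).filter (· ∈ (l.elim Set.univ 𝒩 : Set ℕ))) a) :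
    Relative ε K B N z 𝒩 a := by
  intro l y₁ y₂ h12 hy2 hR
  have h1 := h (some l) y₁ y₂ h12 hy2
  rw [rough_eq a z (𝒩 l) (B * N) y₁ y₂ hy2] at hR ⊢
  rw [prime_eq a (𝒩 l) (B * N) y₁ y₂ hy2, V_eq]
  exact h1 hR

open Classical in
lemma hl_of (ε : ℝ) (K B N : ℕ) {k : ℕ} (a : Fin k → ℤ) (h : HLw ε K B N a) : HardyLittlewood ε K B N a := by
  obtain ⟨S, h1, h2, h3⟩ := h
  refine ⟨S, h1, by rw [← Gz_eq1]; exact h2, fun y₁ y₂ h12 hy2 hW => ?_⟩
  have h4 := h3 y₁ y₂ h12 hy2 hW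
  rw [prime_eq a Set.univ (B * N) y₁ y₂ hy2]
  have e : ∀ (inst : DecidablePred (· ∈ (Set.univ : Set ℕ))),
      @Finset.filter ℕ (· ∈ (Set.univ : Set ℕ)) inst (Ioc 0 (B * N)) = Ioc 0 (B * N) := by
    intro inst
    ext n
    rw [mem_filter]
    exact ⟨fun h => h.1, fun h => ⟨h, Set.mem_univ _⟩⟩
  rw [e]
  exact h4

lemma hb1_mono {k : ℕ} {τ : Type} (ε ε' : ℝ) (K K' B N z : ℕ) (𝒩 : τ → Finset ℕ) (a : Fin k → ℤ) (hε : ε ≤ ε') (hK : K' ≤ K)
    (hL : 1 ≤ Real.log N) (h : HB1 ε K B N z 𝒩 a) : HB1 ε' K' B N z 𝒩 a := by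
  intro l y₁ y₂ h12 hy2 hR
  have h1 : (N : ℝ) / Real.log N ^ K ≤ N / Real.log N ^ K' := by
    apply div_le_div_of_nonneg_left (Nat.cast_nonneg _) (by positivity)
    exact pow_le_pow_right₀ hL hK
  refine (h l y₁ y₂ h12 hy2 (h1.trans hR)).trans ?_
  apply mul_le_mul_of_nonneg_right hε
  have := Pool.Agent.H373R2.T7.Vz_pos z
  positivity

open Classical in
/-- **The prime `k`-tuples asymptotics for almost all vectors of shifts on every hyperplane of small height,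
with arguments in arbitrary sets.** Let `E` be large in terms of `k, A, B, T, U, K, ε` and `N` large in terms of
all of them. Let `𝒩 1, ..., 𝒩 m`, `m ≤ log ^ T N`, be arbitrary sets of positive integers and let
`γ 1 a 1 + ... + γ k a k = c` be an arbitrary hyperplane with integral coefficients `|γ i| ≤ log ^ A N` such that
at least three of `γ 1, ..., γ k, -(γ 1 + ... + γ k)` are not zero (`c` is arbitrary). Then all but at most
`N ^ (k - 1) / log ^ U N` of the vectors `a` of integers `|a i| ≤ B N` on the hyperplane satisfy: the statement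
`Relative` for the sets `𝒩 l` with the sieving limit `z = ⌊log ^ E N⌋` and, if the `a i` are distinct and form an
admissible set, the formula of Hardy and Littlewood in all windows. -/
theorem result (k A B T U K : ℕ) (ε : ℝ) (hε : 0 < ε) : ∃ E₀ : ℕ, ∀ E : ℕ, E₀ ≤ E → ∃ N₀ : ℕ, ∀ N : ℕ, N₀ ≤ N →
    ∀ m : ℕ, (m : ℝ) ≤ Real.log N ^ T → ∀ 𝒩 : Fin m → Set ℕ,
    ∀ γ : Fin k → ℤ, (∀ i, ((γ i).natAbs : ℝ) ≤ Real.log N ^ A) → 3 ≤ nonzero γ → ∀ c : ℤ,
      (((Fintype.piFinset (fun _ : Fin k => Icc (-((B * N : ℕ) : ℤ)) ((B * N : ℕ) : ℤ))).filter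
        (fun a => ∑ i, γ i * a i = c ∧ ¬ (Relative ε K B N ⌊Real.log N ^ E⌋₊ 𝒩 a ∧
          (Function.Injective a → Admissible a → HardyLittlewood ε K B N a)))).card : ℝ) ≤
        (N : ℝ) ^ (k - 1) / Real.log N ^ U := by
  by_cases hk : 1 ≤ k
  swap
  · refine ⟨0, fun E _ => ⟨0, fun N _ m _ 𝒩 γ _ hγ c => ?_⟩⟩
    exfalso
    have h0 : k = 0 := by omega
    subst h0
    unfold nonzero at hγ
    simp at hγ
  have hmin : 0 < min ε 1 / 4 := by
    have : 0 < min ε 1 := lt_min hε zero_lt_one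
    linarith
  have hmin2 : min ε 1 / 4 ≤ ε := by
    have := min_le_left ε 1
    linarith
  obtain ⟨E0, h0⟩ := win1 Pool.Agent.E8helper28.GB.u3 k A B (T + 1) U (K + k + 2) (min ε 1 / 4) hmin
  refine ⟨E0 + 3, fun E hE => ?_⟩
  obtain ⟨n0, h1⟩ := h0 E (by omega)
  obtain ⟨n1, h2⟩ := hl_det k B K E hk (by omega) ε hε
  obtain ⟨n2, h3⟩ := ev_L' 2
  refine ⟨n0 + n1 + n2, fun N hN m hm 𝒩 γ hγA hγ c => ?_⟩
  have hL := h3 N (by omega)
  have key := h1 N (by omega) (Option (Fin m)) (by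
      rw [Fintype.card_option, Fintype.card_fin, pow_succ]
      push_cast
      have h5 : 1 ≤ Real.log N ^ T := one_le_pow₀ (by linarith)
      nlinarith) (fun l : Option (Fin m) => (Ioc 0 (B * N)).filter (· ∈ (l.elim Set.univ 𝒩 : Set ℕ)))
      (fun l => filter_subset _ _) γ hγA (good_of γ hγ) c
  refine le_trans ?_ key
  rw [Nat.cast_le]
  apply card_le_card
  intro a ha
  rw [mem_filter] at ha
  obtain ⟨ha1, ha2, ha3⟩ := ha
  rw [mem_filter]
  refine ⟨?_, fun hHB => ha3 ⟨?_, fun hinj hadm => ?_⟩⟩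
  · unfold hyp
    rw [mem_filter]
    exact ⟨ha1, ha2⟩
  · exact rel_of ε K B N _ 𝒩 a (hb1_mono _ _ _ _ _ _ _ _ _ hmin2 (by omega) (by linarith) hHB)
  · apply hl_of
    refine h2 N (by omega) a ?_ hinj (adm_eq a hadm) (Option (Fin m)) _ none ?_ hHB
    · intro i
      have := mem_Icc.1 (Fintype.mem_piFinset.1 ha1 i)
      omega
    · ext n
      rw [mem_filter]
      exact ⟨fun h => h.1, fun h => ⟨h, Set.mem_univ _⟩⟩

end Pool.Agent.Results.MP_f686a1_nt.HyperplanesH28
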